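import Pool.Agent.LPW.StmtsS

/-!
# Squad LPW, row ABS: integral points in one strip lie on an algebraic curve
-/

set_option autoImplicit false

open Polynomial

namespace Pool.Agent.LPW.H94

open Pool.Agent.LPW

/-- the bound of the determinant -/
theorem det_bound {L n : ℕ} (e : Fin L → Fin 2 → ℕ) (N : ℕ) (P : Fin L → Fin 2 → ℤ)
    (hP : ∀ b i, |P b i| ≤ N) :
    |(Matrix.of fun a b : Fin L => (P b 0) ^ (e a 0) * (P b 1) ^ (e a 1)).det| ≤
      (L.factorial : ℤ) * (N : ℤ) ^ (∑ a, (e a 0 + e a 1)) := by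
  rw [Matrix.det_apply']
  refine (Finset.abs_sum_le_sum_abs _ _).trans ?_
  have h : ∀ σ ∈ (Finset.univ : Finset (Equiv.Perm (Fin L))),
      |((Equiv.Perm.sign σ : ℤ) : ℤ) *
        ∏ i, (Matrix.of fun a b : Fin L => (P b 0) ^ (e a 0) * (P b 1) ^ (e a 1)) (σ i) i| ≤
      (N : ℤ) ^ (∑ a, (e a 0 + e a 1)) := by
    intro σ _
    rw [abs_mul]
    have h1 : |((Equiv.Perm.sign σ : ℤ) : ℤ)| = 1 := by
      rcases Int.units_eq_one_or (Equiv.Perm.sign σ) with h | h <;> simp [h]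
    rw [h1, one_mul, Finset.abs_prod]
    have h2 : (N : ℤ) ^ (∑ a, (e a 0 + e a 1)) = ∏ i, (N : ℤ) ^ (e (σ i) 0 + e (σ i) 1) := by
      rw [Finset.prod_pow_eq_pow_sum]
      congr 1
      exact (Equiv.sum_comp σ (fun a => e a 0 + e a 1)).symm
    rw [h2]
    refine Finset.prod_le_prod (fun i _ => abs_nonneg _) fun i _ => ?_
    rw [Matrix.of_apply, abs_mul, abs_pow, abs_pow, pow_add]
    exact mul_le_mul (pow_le_pow_left₀ (abs_nonneg _) (hP i 0) _)
      (pow_le_pow_left₀ (abs_nonneg _) (hP i 1) _) (by positivity) (by positivity)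
  refine (Finset.sum_le_card_nsmul _ _ _ h).trans (le_of_eq ?_)
  rw [Finset.card_univ, Fintype.card_perm, Fintype.card_fin, nsmul_eq_mul]

/-- determinants of congruent matrices are congruent -/
theorem det_congr {A : Type} [CommRing A] {L : ℕ} (q : A) (M M' : Matrix (Fin L) (Fin L) A)
    (h : ∀ i j, q ∣ M i j - M' i j) : q ∣ M.det - M'.det := by
  have h1 : ∀ x y : A, q ∣ x - y ↔ Ideal.Quotient.mk (Ideal.span {q}) x =
      Ideal.Quotient.mk (Ideal.span {q}) y := by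
    intro x y
    rw [Ideal.Quotient.eq, Ideal.mem_span_singleton]
  rw [h1, RingHom.map_det, RingHom.map_det]
  congr 1
  ext i j
  exact (h1 _ _).1 (h i j)

theorem absS : AbsStmt := by
  intro hdet hdep p _ m L k N hm e hN Z hZ hr
  obtain ⟨r, η, hrd, hr⟩ := hr
  obtain ⟨α, hα, hα'⟩ := hdep ℤ L Z.card
    (fun a b => ((Z.equivFin.symm b).1 0) ^ (e a 0) * ((Z.equivFin.symm b).1 1) ^ (e a 1)) (by
    intro J
    have hbd := det_bound (n := 0) e N (fun b => (Z.equivFin.symm (J b)).1)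
      (fun b i => hZ _ (Z.equivFin.symm (J b)).2 i)
    choose ξ y hy using fun b : Fin L => hr (Z.equivFin.symm (J b)).1 (Z.equivFin.symm (J b)).2
    have h1 := hdet ℤ_[p] ((p : ℤ_[p]) ^ k) m L hm r hrd η ξ y
    rw [← pow_mul] at h1
    have h2 := det_congr ((p : ℤ_[p]) ^ (k * ee m L))
      (Matrix.of fun a b => ((r a).map (evalRingHom (η + (p : ℤ_[p]) ^ k * ξ b))).eval (y b))
      ((Matrix.of fun a b : Fin L => ((Z.equivFin.symm (J b)).1 0) ^ (e a 0) *
        ((Z.equivFin.symm (J b)).1 1) ^ (e a 1)).map (Int.castRingHom ℤ_[p]))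
      (fun a b => hy b a)
    have h3 := (dvd_sub_right h1).1 h2
    have h4 : ((Matrix.of fun a b : Fin L => ((Z.equivFin.symm (J b)).1 0) ^ (e a 0) *
        ((Z.equivFin.symm (J b)).1 1) ^ (e a 1)).map (Int.castRingHom ℤ_[p])).det =
        (((Matrix.of fun a b : Fin L => ((Z.equivFin.symm (J b)).1 0) ^ (e a 0) *
        ((Z.equivFin.symm (J b)).1 1) ^ (e a 1)).det : ℤ) : ℤ_[p]) :=
      (RingHom.map_det (Int.castRingHom ℤ_[p]) _).symm
    rw [h4, PadicInt.pow_p_dvd_int_iff] at h3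
    refine Int.eq_zero_of_abs_lt_dvd h3 (lt_of_le_of_lt hbd ?_)
    exact_mod_cast hN)
  refine ⟨α, hα, fun P hP => ?_⟩
  have h := hα' (Z.equivFin ⟨P, hP⟩)
  rw [Equiv.symm_apply_apply] at h
  exact h

end Pool.Agent.LPW.H94
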